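import Pool.Agent.N193.PS.Eqs3

/-!
# The product of Birch and Swinnerton-Dyer for almost all curves `y² = x³ + a x + n` with `n` among the values of functions
of non-integral index

From Mathlib: `ContDiffAt ℝ ⊤`: infinitely differentiable at a point; `iteratedDeriv m f`: the derivative of order `m`;
`⌊y⌋₊`: the integer part of `y`, and `0` for `y < 0`.

Method: the characteristic function of the integer part of `f n` is small at all frequencies which are not close to
integers (van der Corput differencing and the inequality of Kusmin and Landau on dyadic blocks for all orders of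
differencing, a discrete Fejer kernel for the passage to integer parts), and the values are not concentrated on short
intervals. The passage from the
characteristic function to sums over primes of functions of residues, for almost all values, is from the starting files
(`Pool.Agent.R459.Bsd`).
-/

set_option autoImplicit false

namespace Pool.Agent.Results.MP_ad1693_nt.NonIntegralOrderCurves

open Finset Filter
open Pool.Agent.W263.BSD (GoodPrime pointCount)
open Pool.Agent.R459.Eq (pri mem_pri)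
open Pool.Agent.R459.Bsd (GG TT)

/-- `f` is smoothly varying of index `c`: it is infinitely differentiable and positive for large arguments, and
`t ^ m f⁽ᵐ⁾(t) / f(t) → c (c - 1) ... (c - m + 1)` for every `m`. -/
def SmoothlyVarying (c : ℝ) (f : ℝ → ℝ) : Prop :=
  (∃ t₀ : ℝ, ∀ t > t₀, ContDiffAt ℝ ((⊤ : ℕ∞) : WithTop ℕ∞) f t ∧ 0 < f t) ∧
  ∀ m : ℕ, Tendsto (fun t => t ^ m * iteratedDeriv m f t / f t) atTop (nhds (∏ i ∈ range m, (c - i)))

open Classical in
/-- Almost all the integers `n = c₀ + κ ⌊f m⌋`, `1 ≤ m ≤ M`, up to a proportion of at most `τ` of the `m`, have the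
property `P`. -/
def Almost (f : ℝ → ℝ) (M : ℕ) (κ c₀ : ℤ) (τ : ℝ) (P : ℤ → Prop) : Prop :=
  (((Icc 1 M).filter (fun m : ℕ => ¬ P (c₀ + κ * (⌊f m⌋₊ : ℕ)))).card : ℝ) ≤ τ * M

lemma almost_of {f : ℝ → ℝ} {M : ℕ} {κ c₀ : ℤ} {τ : ℝ} {P Q : ℤ → Prop}
    (h : Pool.Agent.N193.PS.AlmostV f M κ c₀ τ P) (hPQ : ∀ n, P n → Q n) : Almost f M κ c₀ τ Q := by
  have h1 := Pool.Agent.N193.PS.AlmostV.mono h hPQ
  unfold Pool.Agent.N193.PS.AlmostV at h1
  unfold Almost
  convert h1

open Classical in
/-- The product of `(N_p + 1) / p` over the primes `p ≤ x` of good reduction of `y² = x³ + a x + n`; `N_p + 1` is the number of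
the points over `F_p`, including the point at infinity. -/
noncomputable def product (a n : ℤ) (x : ℕ) : ℝ :=
  ∏ p ∈ (range (x + 1)).filter (fun p => GoodPrime a n p), ((pointCount a n p : ℝ) + 1) / p

open Classical in
/-- The sum of `a_p log p`, `a_p = p - N_p`, over the primes `p ≤ x` of good reduction of `y² = x³ + a x + n`. -/
noncomputable def traceSum (a n : ℤ) (x : ℕ) : ℝ :=
  ∑ p ∈ (range (x + 1)).filter (fun p => GoodPrime a n p), ((p : ℝ) - pointCount a n p) * Real.log p

lemma product_eq (a n : ℤ) (x : ℕ) : Real.log (product a n x) = ∑ p ∈ pri x, GG a p n := by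
  classical
  unfold product
  rw [Real.log_prod]
  · have e : ∑ p ∈ pri x, GG a p n = ∑ p ∈ (range (x + 1)).filter (fun p => GoodPrime a n p), GG a p n := by
      symm
      apply sum_subset
      · intro p hp
        rw [mem_filter, mem_range] at hp
        rw [mem_pri]
        exact ⟨by omega, hp.2.1⟩
      · intro p hp hnp
        rw [mem_pri] at hp
        unfold GG
        rw [if_neg]
        intro hg
        apply hnp
        rw [mem_filter, mem_range]
        exact ⟨by omega, hg⟩
    rw [e]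
    apply sum_congr rfl
    intro p hp
    unfold GG
    rw [if_pos (mem_filter.1 hp).2]
  · intro p hp
    rw [mem_filter] at hp
    have : (0 : ℝ) < p := by exact_mod_cast hp.2.1.pos
    positivity

lemma traceSum_eq (a n : ℤ) (x : ℕ) : traceSum a n x = ∑ p ∈ pri x, TT a p n * Real.log p := by
  classical
  unfold traceSum
  have e : ∑ p ∈ pri x, TT a p n * Real.log p = ∑ p ∈ (range (x + 1)).filter (fun p => GoodPrime a n p), TT a p n * Real.log p := by
    symm
    apply sum_subset
    · intro p hp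
      rw [mem_filter, mem_range] at hp
      rw [mem_pri]
      exact ⟨by omega, hp.2.1⟩
    · intro p hp hnp
      rw [mem_pri] at hp
      unfold TT
      rw [if_neg, zero_mul]
      intro hg
      apply hnp
      rw [mem_filter, mem_range]
      exact ⟨by omega, hg⟩
  rw [e]
  apply sum_congr rfl
  intro p hp
  unfold TT
  rw [if_pos (mem_filter.1 hp).2]


/-- **(1)** Let `f` be smoothly varying of an index `c > 0` which is not an integer. There is `W` such that for all `κ ≠ 0` the
following two assertions hold.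

First, for every `a ≠ 0` there are `C` and `X₀` such that for all `M`, all integers `c₀`, all `x ≥ X₀` with `x ^ W ≤ f M` and
all `l > 0`: almost all the integers `n = c₀ + κ ⌊f m⌋`, `m ≤ M`, up to a proportion of at most `C / l²`, satisfy
`|log P(x) - (log log x) / 2| ≤ l (log log x) ^ (1 / 2)`, where `P(x)` is the product of `(N_p + 1) / p` over the primes `p ≤ x`
of good reduction of `y² = x³ + a x + n`. So for almost all these curves `P(x)` is of size `(log x) ^ (1 / 2 + o(1))`.

Second, let `0 < δ ≤ 1 / 2`. For all sufficiently large `X`, all `M`, all `c₀` and ALL integers `a`: almost all the integers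
`n = c₀ + κ ⌊f m⌋`, `m ≤ M`, up to a proportion of at most `X ^ (- δ)`, have the property that the sum of `a_p log p` over the
primes `p ≤ x` of good reduction is at most `x ^ (1 + δ)` in absolute value for ALL `x ≥ X` with `x ^ W ≤ f M`.

**(2)** Part (1) applies to all the functions `f t = ∑ a z t ^ z.1 (log t) ^ z.2` (finite sums) with a leading term `z₀`
whose coefficient is positive and whose exponent `c = z₀.1` is positive and not an integer; for example to `n ^ c`. -/
theorem result :
    (∀ (c : ℝ) (f : ℝ → ℝ), 0 < c → (∀ m : ℕ, c ≠ m) → SmoothlyVarying c f → ∃ W : ℕ, 1 ≤ W ∧ ∀ κ : ℤ, κ ≠ 0 →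
      (∀ a : ℤ, a ≠ 0 → ∃ (C : ℝ) (X₀ : ℕ), 0 < C ∧ ∀ (M : ℕ) (c₀ : ℤ) (x : ℕ), X₀ ≤ x → (x : ℝ) ^ W ≤ f M →
        ∀ l : ℝ, 0 < l → Almost f M κ c₀ (C / l ^ 2) (fun n =>
          |Real.log (product a n x) - Real.log (Real.log x) / 2| ≤ l * √(Real.log (Real.log x)))) ∧
      (∀ δ : ℝ, 0 < δ → δ ≤ 1 / 2 → ∃ X₀ : ℕ, ∀ X : ℕ, X₀ ≤ X → ∀ (M : ℕ) (c₀ a : ℤ),
        Almost f M κ c₀ ((X : ℝ) ^ (-δ)) (fun n => ∀ x : ℕ, X ≤ x → (x : ℝ) ^ W ≤ f M →
          |traceSum a n x| ≤ (x : ℝ) ^ (1 + δ)))) ∧
    (∀ (F : Finset (ℝ × ℝ)) (a : ℝ × ℝ → ℝ) (z₀ : ℝ × ℝ), z₀ ∈ F → 0 < a z₀ →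
      (∀ z ∈ F, z ≠ z₀ → z.1 < z₀.1 ∨ z.1 = z₀.1 ∧ z.2 < z₀.2) →
      SmoothlyVarying z₀.1 (fun t => ∑ z ∈ F, a z * t ^ z.1 * Real.log t ^ z.2)) := by
  refine ⟨fun c f hc hn hf => ?_, fun F a z₀ h1 h2 h3 => Pool.Agent.N193.PS.gp_sv F a z₀ h1 h2 h3⟩
  obtain ⟨W₁, hW₁, K₁⟩ := Pool.Agent.N193.PS.sv_log c f hc hn hf
  obtain ⟨W₂, hW₂, K₂⟩ := Pool.Agent.N193.PS.sv_tr c f hc hn hf
  refine ⟨W₁ + W₂, by omega, fun κ hκ => ⟨fun a ha => ?_, fun δ hδ hδ1 => ?_⟩⟩
  · obtain ⟨C, X₀, hC, J⟩ := K₁ κ hκ a ha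
    refine ⟨C, X₀ + 1, hC, fun M c₀ x hx hxW l hl => ?_⟩
    have hx1 : (1 : ℝ) ≤ x := by exact_mod_cast (by omega : 1 ≤ x)
    refine almost_of (J M c₀ x (by omega) ((pow_le_pow_right₀ hx1 (by omega)).trans hxW) l hl) ?_
    intro n hn
    rw [product_eq]
    exact hn
  · obtain ⟨X₀, J⟩ := K₂ κ hκ δ hδ hδ1
    refine ⟨X₀ + 1, fun X hX M c₀ a => ?_⟩
    refine almost_of (J X (by omega) M c₀ a) ?_
    intro n hn x hXx hxW
    have hx1 : (1 : ℝ) ≤ x := by exact_mod_cast (by omega : 1 ≤ x)
    rw [traceSum_eq]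
    exact hn x hXx ((pow_le_pow_right₀ hx1 (by omega)).trans hxW)

end Pool.Agent.Results.MP_ad1693_nt.NonIntegralOrderCurves
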