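import Pool.Agent.N739.EL.Form
import Pool.Agent.N739.EL.Slow4
import Pool.Agent.Results.MP_3283e1_nt.MeanSquareLaw

/-!
# One-sided slow variation of the product of Birch and Swinnerton-Dyer on one sparse sequence of windows

Let `E : y² = x³ + a x + b` be an elliptic curve over `ℚ`, `a, b ∈ ℤ`, `F` the entire continuation of its incomplete
`L`-series, `r = ord_{s=1} F`, `f` its newform, `P(x) = ∏_{p ≤ x, p ∤ 2Δ} N_p / p` (`N_p` points modulo `p`, with the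
point at infinity) and `T = √2 e^{rγ} r! / |F^{(r)}(1)|` Goldfeld's constant. For every curve, without any hypothesis:

1. If `F(s) = 0` with `Re s > 1` there is `C > 1` such that EVERY interval `[X, CX]`, `X` large, contains `x ≤ y` with
   `P(y) ≥ exp(X^(Re s - 1 - ε)) P(x)`; if `F` has no real zeros `> 1`, also `x ≤ y` with
   `P(x) ≥ exp(X^(Re s - 1 - ε)) P(y)` (`C` does not depend on `ε`).
2. Let `X_n → ∞` be an arbitrary sequence and `λ > 1`. If `P(y) ≤ K P(x)` for `x ≤ y ≤ λx` near `X_n` (that is, for all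
   `C > 1`, for `x, y` in `[X_n/C, C X_n]`, `n ≥ n(C)`) then the Riemann hypothesis for `E` holds and
   `T (log x)^r / K' ≤ P(x) ≤ K' T (log x)^r` near `X_n`, for all `K' > K`. If `F` has no real zeros `> 1` then the same
   follows from `P(x) ≤ K P(y)`.
3. So the conjecture near `X_n`, `P(x) ~ A (log x)^ρ` for some `A > 0`, implies the Riemann hypothesis for `E`,
   `ρ = r` and `A = T`, and it is equivalent to `ρ = r` together with the one-sided condition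
   `P(y) ≤ (1 + ε) P(x)` for `x ≤ y ≤ λx` near `X_n` (or `P(x) ≤ (1 + ε) P(y)` and no real zeros `> 1`), for all `ε > 0`.
4. The same for `P(x) ≍ (log x)^ρ` with a constant `K` in place of `1 + ε`.
5. For all `x`: the conjecture `P(x) ~ A (log x)^ρ` holds for some `A > 0` if and only if `ρ = r` and `P` is slowly
   varying, `P(tx)/P(x) → 1` for all `t > 0`, and if and only if `ρ = r` and `P(y) ≤ (1 + ε) P(x)` for
   `x ≤ y ≤ λx` and large `x`, for all `ε > 0`.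

The starting file `OneSidedSlowVariation` has 5 with `x ≤ y ≤ x^(1+δ)`, for all large `x`; the starting file `EveryWindow`
has the first part of 3 for the windows `[X^(1-δ), X]`. Here the windows have bounded ratio, lie near one arbitrarily
sparse sequence and the conditions are one-sided.

Proof of 1. `D(u) = ∑_{p ≤ e^u} log p · log (N_p/p)` is a sum over the zeros `ρ'` of `F(1+s)` of `e^(ρ'u)/ρ'`. For a
zero `ρ' = β + iγ` with `γ ≠ 0` the positive operator `f(u) + e^(-βπ/|γ|) f(u + π/|γ|)` annihilates `e^(ρ'u)`; by the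
density theorem of Selberg's strength for newforms the sum of the shifts `π/|γ|` over the zeros with `β > θ` is finite
for every `θ > 0`. The composition of all of them annihilates everything off the real line to the right of `θ`.
2. The chain `x ≤ y₁ ≤ …` inside the window contradicts 1, so the Riemann hypothesis holds; then
`log (P(x) / (T (log x)^r))` tends to `0` in the mean on all intervals `[X, CX]` and a Tauberian argument inside the
window gives 2. 5 uses Karamata's uniform convergence theorem.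
-/

set_option autoImplicit false

namespace Pool.Agent.Results.MP_ad1693_nt.OneSparseSequence

open Pool.Agent.W263.BSD Filter Topology Classical Set
open CongruenceSubgroup UpperHalfPlane
open scoped MatrixGroups

/-- The `n`-th Fourier coefficient of `f`. -/
noncomputable def coef {N : ℕ} (f : CuspForm (Gamma0 N : Subgroup (GL (Fin 2) ℝ)) 2) (n : ℕ) : ℂ :=
  (qExpansion 1 f).coeff n

/-- `f ∈ S_2(Γ₀(N))` is the newform of the elliptic curve `E : y² = x³ + a x + b` of conductor `N` and root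
number `w`: the Fourier coefficients `c(n)` of `f` are real with `c(1) = 1`, they satisfy the Hecke relations
`c(mn) = c(m) c(n)` for coprime `m`, `n` and `c(p^(j+2)) = c(p) c(p^(j+1)) - p c(p^j)` (without the last
term if `p ∣ N`), `c(p) = a_p = p - N_p` (`N_p` affine points) for all primes `p ∤ 2Δ`, `|c(p)| ≤ 2 √p` for
all `p ∤ N` (Hasse), `c(p) = 0, 1, -1` for `p ∣ N` and `f(-1/(Nτ)) = -w N τ² f(τ)`. By the modularity theorem it
exists for every `E`. -/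
structure IsNewformOf (a b : ℤ) (N : ℕ) (f : CuspForm (Gamma0 N : Subgroup (GL (Fin 2) ℝ)) 2) (w : ℝ) :
    Prop where
  one : coef f 1 = 1
  real : ∀ n, (coef f n).im = 0
  mul : ∀ m n : ℕ, Nat.Coprime m n → coef f (m * n) = coef f m * coef f n
  pow : ∀ p j : ℕ, p.Prime → coef f (p ^ (j + 2)) = coef f p * coef f (p ^ (j + 1)) -
      (if p ∣ N then 0 else (p : ℂ) * coef f (p ^ j))
  points : ∀ p : ℕ, GoodPrime a b p → coef f p = (p : ℂ) - (pointCount a b p : ℂ)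
  good : ∀ p : ℕ, p.Prime → ¬ p ∣ N → ‖coef f p‖ ≤ 2 * Real.sqrt p
  bad : ∀ p : ℕ, p.Prime → p ∣ N → coef f p = 0 ∨ coef f p = 1 ∨ coef f p = -1
  sign : w = 1 ∨ w = -1
  fricke : ∀ τ τ' : ℍ, (τ' : ℂ) * ((N : ℂ) * (τ : ℂ)) = -1 →
    f τ' = -(w : ℂ) * (N : ℂ) * (τ : ℂ) ^ 2 * f τ

/-- `F` has no zeros with `Re s > 1` (the Riemann hypothesis for `E`). -/
def NoZeros (F : ℂ → ℂ) : Prop := ∀ s : ℂ, 1 < s.re → F s ≠ 0

/-- `F` has no real zeros `s > 1`. -/
def NoRealZeros (F : ℂ → ℂ) : Prop := ∀ s : ℝ, 1 < s → F s ≠ 0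

/-- Goldfeld's constant `T = √2 e^{rγ} r! / |F^{(r)}(1)|`. -/
noncomputable def T (F : ℂ → ℂ) (r : ℕ) : ℝ :=
  √2 * Real.exp (r * Real.eulerMascheroniConstant) * (r.factorial : ℝ) / ‖iteratedDeriv r F 1‖

/-- `Q x` holds near the points of the sequence: for every `C > 1` and all `n ≥ n(C)`, for all `x ∈ [X_n/C, C X_n]`. -/
def Near (X : ℕ → ℝ) (Q : ℝ → Prop) : Prop :=
  ∀ C : ℝ, 1 < C → ∀ᶠ n in atTop, ∀ x : ℝ, X n / C ≤ x → x ≤ C * X n → Q x

/-- `Q x y` holds for `x ≤ y ≤ lam x` near the points of the sequence: for every `C > 1` and all `n ≥ n(C)`, for all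
these `x, y ∈ [X_n/C, C X_n]`. -/
def NearPairs (X : ℕ → ℝ) (lam : ℝ) (Q : ℝ → ℝ → Prop) : Prop :=
  ∀ C : ℝ, 1 < C → ∀ᶠ n in atTop, ∀ x y : ℝ, X n / C ≤ x → x ≤ y → y ≤ lam * x → y ≤ C * X n → Q x y

/-- **Main theorem.** `bsdProduct a b x` is `P(x) = ∏_{p ≤ x, p ∤ 2Δ} N_p / p`. -/
theorem result (a b : ℤ) (hΔ : 4 * a ^ 3 + 27 * b ^ 2 ≠ 0) (F : ℂ → ℂ) (hF : IsLSeries a b F)
    (N : ℕ) [NeZero N] (f : CuspForm (Gamma0 N : Subgroup (GL (Fin 2) ℝ)) 2) (w : ℝ)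
    (hf : IsNewformOf a b N f w) (r : ℕ) (hr : analyticOrderAt F 1 = r) (P : ℝ → ℝ) (hP : P = bsdProduct a b) :
    (∀ s : ℂ, F s = 0 → 1 < s.re → (∃ C : ℝ, 1 < C ∧ ∀ ε : ℝ, 0 < ε → ∀ᶠ X : ℝ in atTop,
        ∃ x y : ℝ, X ≤ x ∧ x ≤ y ∧ y ≤ C * X ∧ Real.exp (X ^ (s.re - 1 - ε)) * P x ≤ P y) ∧
      (NoRealZeros F → ∃ C : ℝ, 1 < C ∧ ∀ ε : ℝ, 0 < ε → ∀ᶠ X : ℝ in atTop,
        ∃ x y : ℝ, X ≤ x ∧ x ≤ y ∧ y ≤ C * X ∧ Real.exp (X ^ (s.re - 1 - ε)) * P y ≤ P x)) ∧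
    (∀ X : ℕ → ℝ, Tendsto X atTop atTop → ∀ lam : ℝ, 1 < lam → ∀ K : ℝ,
      (NearPairs X lam (fun x y => P y ≤ K * P x) ∨
        (NoRealZeros F ∧ NearPairs X lam (fun x y => P x ≤ K * P y))) →
      NoZeros F ∧ 0 < T F r ∧ ∀ K' : ℝ, K < K' → Near X fun x =>
        T F r * Real.log x ^ (r : ℝ) ≤ K' * P x ∧ P x ≤ K' * (T F r * Real.log x ^ (r : ℝ))) ∧
    (∀ X : ℕ → ℝ, Tendsto X atTop atTop → ∀ lam : ℝ, 1 < lam → ∀ ρ : ℝ, List.TFAE [
      NoZeros F ∧ ρ = r ∧ 0 < T F r ∧ ∀ ε : ℝ, 0 < ε → Near X fun x => |P x / (T F r * Real.log x ^ ρ) - 1| ≤ ε,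
      ∃ A : ℝ, 0 < A ∧ ∀ ε : ℝ, 0 < ε → Near X fun x => |P x / (A * Real.log x ^ ρ) - 1| ≤ ε,
      ρ = r ∧ ∀ ε : ℝ, 0 < ε → NearPairs X lam fun x y => P y ≤ (1 + ε) * P x,
      ρ = r ∧ NoRealZeros F ∧ ∀ ε : ℝ, 0 < ε → NearPairs X lam fun x y => P x ≤ (1 + ε) * P y]) ∧
    (∀ X : ℕ → ℝ, Tendsto X atTop atTop → ∀ lam : ℝ, 1 < lam → ∀ ρ : ℝ, List.TFAE [
      NoZeros F ∧ ρ = r ∧ ∃ K : ℝ, Near X fun x => Real.log x ^ ρ ≤ K * P x ∧ P x ≤ K * Real.log x ^ ρ,
      ∃ K : ℝ, Near X fun x => Real.log x ^ ρ ≤ K * P x ∧ P x ≤ K * Real.log x ^ ρ,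
      ρ = r ∧ ∃ K : ℝ, NearPairs X lam fun x y => P y ≤ K * P x,
      ρ = r ∧ NoRealZeros F ∧ ∃ K : ℝ, NearPairs X lam fun x y => P x ≤ K * P y]) ∧
    (∀ lam : ℝ, 1 < lam → ∀ ρ : ℝ, List.TFAE [
      NoZeros F ∧ ρ = r ∧ 0 < T F r ∧ Tendsto (fun x : ℝ => P x / Real.log x ^ ρ) atTop (𝓝 (T F r)),
      ∃ A : ℝ, 0 < A ∧ Tendsto (fun x : ℝ => P x / Real.log x ^ ρ) atTop (𝓝 A),
      ρ = r ∧ ∀ t : ℝ, 0 < t → Tendsto (fun x : ℝ => P (t * x) / P x) atTop (𝓝 1),
      ρ = r ∧ ∀ ε : ℝ, 0 < ε → ∀ᶠ x : ℝ in atTop, ∀ y : ℝ, x ≤ y → y ≤ lam * x → P y ≤ (1 + ε) * P x,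
      ρ = r ∧ NoRealZeros F ∧
        ∀ ε : ℝ, 0 < ε → ∀ᶠ x : ℝ in atTop, ∀ y : ℝ, x ≤ y → y ≤ lam * x → P x ≤ (1 + ε) * P y]) := by
  subst hP
  have hH : Pool.Agent.TH941.Hecke f :=
    { one := hf.one
      real := hf.real
      mul := hf.mul
      pow := hf.pow
      good := hf.good
      bad := fun p hp hpN => by
        have h2 : ‖coef f p‖ ≤ 1 := by
          rcases hf.bad p hp hpN with h | h | h <;> simp [h]
        exact h2 }
  have hB : Pool.Agent.TH941.Belongs a b f := fun p hp => hf.points p hp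
  have hf' : Pool.Agent.W169.HF.IsForm N f w :=
    { one := hf.one
      real := hf.real
      mul := hf.mul
      pow := hf.pow
      sign := hf.sign
      fricke := hf.fricke
      good := hf.good
      bad := fun p hp hpN => by
        have h1 : (1 : ℝ) ≤ Real.sqrt p := by
          rw [Real.one_le_sqrt]
          exact_mod_cast hp.one_le
        have h2 : ‖coef f p‖ ≤ 1 := by
          rcases hf.bad p hp hpN with h | h | h <;> simp [h]
        exact h2.trans h1 }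
  have hgr := Pool.Agent.N739.EL.growth_nf hΔ hF hH hB
  have hdens := Pool.Agent.N739.EL.dens_form hΔ hF hH hB hf'
  have hrs : Tendsto (rsSum a b) atTop (𝓝 0) := hH.rsSum_tendsto hΔ hB
  obtain ⟨C₀, κ₀, hg⟩ := Pool.Agent.TH270.MS.EQ.growth_F hΔ hF hH hB
  have H := Pool.Agent.N739.EL.facts hΔ hF hgr hdens hrs (by norm_num : (0 : ℝ) < 1 / 8) hg hr
  refine ⟨fun s hz hs => ⟨H.up s hz hs, fun hR => H.dn hR s hz hs⟩, ?_, ?_, ?_, ?_⟩
  · intro X hX lam hlam K h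
    have hl : map X atTop ≤ atTop := hX
    have h1 : Pool.Agent.N739.EL.NoZ F ∧ 0 < Pool.Agent.N739.EL.Tc F r ∧ ∀ K' : ℝ, K < K' →
        Pool.Agent.N739.EL.NearW (map X atTop) (Pool.Agent.N739.EL.dev a b (Pool.Agent.N739.EL.Tc F r) r)
          (Real.log K') := by
      rcases h with h | ⟨hR, h⟩
      · exact Pool.Agent.N739.EL.quant_up H hl hlam h
      · exact Pool.Agent.N739.EL.quant_dn H hR hl hlam h
    obtain ⟨h2, h3, h4⟩ := h1
    refine ⟨h2, h3, fun K' hK' => ?_⟩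
    have hK : 0 < K' := by
      have hPp := fun x => bsdProduct_pos (a := a) (b := b) x
      have h5 : 1 ≤ K := by
        rcases h with h | ⟨-, h⟩
        · refine Pool.Agent.N739.EL.K_ge_one hPp hl hlam (l := map X atTop) fun C hC => ?_
          have h6 := h C hC
          have h7 : ∀ᶠ n in atTop, ∀ x y : ℝ, X n / C ≤ x → x ≤ y → y ≤ lam * x → y ≤ C * X n →
              bsdProduct a b x ≤ K * bsdProduct a b x := by
            filter_upwards [h6, hX.eventually (Pool.Agent.N739.EL.ev_ge le_rfl hC 0)] with n h8 h9 x y a1 a2 _ a4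
            exact h8 x x a1 le_rfl (by nlinarith [h9 x a1]) (a2.trans a4)
          exact h7
        · refine Pool.Agent.N739.EL.K_ge_one hPp hl hlam (l := map X atTop) fun C hC => ?_
          have h6 := h C hC
          have h7 : ∀ᶠ n in atTop, ∀ x y : ℝ, X n / C ≤ x → x ≤ y → y ≤ lam * x → y ≤ C * X n →
              bsdProduct a b x ≤ K * bsdProduct a b x := by
            filter_upwards [h6, hX.eventually (Pool.Agent.N739.EL.ev_ge le_rfl hC 0)] with n h8 h9 x y a1 a2 _ a4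
            exact h8 x x a1 le_rfl (by nlinarith [h9 x a1]) (a2.trans a4)
          exact h7
      linarith
    exact (Pool.Agent.N739.EL.mag_near hl h3 hK).2 (h4 K' hK')
  · intro X hX lam hlam ρ
    have hl : map X atTop ≤ atTop := hX
    have h1 := Pool.Agent.N739.EL.critA H hl hlam ρ
    have key : ∀ {A : ℝ}, 0 < A → ((∀ ε : ℝ, 0 < ε → Near X fun x => |bsdProduct a b x / (A * Real.log x ^ ρ) - 1| ≤ ε) ↔
        ∀ ε : ℝ, 0 < ε → Pool.Agent.N739.EL.NearW (map X atTop) (Pool.Agent.N739.EL.dev a b A ρ) ε) := by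
      intro A hA
      rw [← Pool.Agent.N739.EL.asymp_near hl hA]
      exact ⟨fun h C hC ε hε => h ε hε C hC, fun h ε hε C hC => h C hC ε hε⟩
    have e1 : (NoZeros F ∧ ρ = r ∧ 0 < T F r ∧
        ∀ ε : ℝ, 0 < ε → Near X fun x => |bsdProduct a b x / (T F r * Real.log x ^ ρ) - 1| ≤ ε) ↔
        (Pool.Agent.N739.EL.NoZ F ∧ ρ = r ∧ 0 < Pool.Agent.N739.EL.Tc F r ∧ ∀ ε : ℝ, 0 < ε →
          Pool.Agent.N739.EL.NearW (map X atTop) (Pool.Agent.N739.EL.dev a b (Pool.Agent.N739.EL.Tc F r) r) ε) := by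
      constructor
      · rintro ⟨h1, h2, h3, h4⟩
        refine ⟨h1, h2, h3, ?_⟩
        have := (key h3).1 h4
        rw [h2] at this
        exact this
      · rintro ⟨h1, h2, h3, h4⟩
        refine ⟨h1, h2, h3, (key h3).2 ?_⟩
        rw [h2]
        exact h4
    have e2 : (∃ A : ℝ, 0 < A ∧ ∀ ε : ℝ, 0 < ε → Near X fun x => |bsdProduct a b x / (A * Real.log x ^ ρ) - 1| ≤ ε) ↔
        ∃ A : ℝ, 0 < A ∧ ∀ ε : ℝ, 0 < ε →
          Pool.Agent.N739.EL.NearW (map X atTop) (Pool.Agent.N739.EL.dev a b A ρ) ε :=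
      ⟨fun ⟨A, hA, h⟩ => ⟨A, hA, (key hA).1 h⟩, fun ⟨A, hA, h⟩ => ⟨A, hA, (key hA).2 h⟩⟩
    rw [e1, e2]
    exact h1
  · intro X hX lam hlam ρ
    have hl : map X atTop ≤ atTop := hX
    have h1 := Pool.Agent.N739.EL.critB H hl hlam ρ
    have key : ∀ ρ : ℝ, (∃ K : ℝ, Near X fun x => Real.log x ^ ρ ≤ K * bsdProduct a b x ∧
        bsdProduct a b x ≤ K * Real.log x ^ ρ) ↔
        ∃ B : ℝ, Pool.Agent.N739.EL.NearW (map X atTop) (Pool.Agent.N739.EL.dev a b 1 ρ) B := by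
      intro ρ
      rw [← Pool.Agent.N739.EL.mag_ex hl one_pos]
      unfold Pool.Agent.N739.EL.MagW
      simp only [one_mul]
      exact Iff.rfl
    have e1 : (NoZeros F ∧ ρ = r ∧ ∃ K : ℝ, Near X fun x => Real.log x ^ ρ ≤ K * bsdProduct a b x ∧
        bsdProduct a b x ≤ K * Real.log x ^ ρ) ↔ (Pool.Agent.N739.EL.NoZ F ∧ ρ = r ∧
          ∃ B : ℝ, Pool.Agent.N739.EL.NearW (map X atTop) (Pool.Agent.N739.EL.dev a b 1 r) B) := by
      refine and_congr_right fun _ => and_congr_right fun h2 => ?_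
      rw [key, h2]
    rw [e1, key]
    exact h1
  · intro lam hlam ρ
    have h1 := Pool.Agent.N739.EL.critA H (le_refl atTop) hlam ρ
    have o12 := h1.out 1 2
    have o20 := h1.out 2 0
    have o30 := h1.out 3 0
    have o13 := h1.out 1 3
    tfae_have 1 → 2 := by
      rintro ⟨-, -, h2, h3⟩
      exact ⟨_, h2, h3⟩
    tfae_have 2 → 3 := by
      rintro ⟨A, hA, h⟩
      have h2 := (Pool.Agent.N739.EL.asymp_near le_rfl hA).1 ((Pool.Agent.N739.EL.asymp_top hA).2 h)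
      have h3 := o12.1 ⟨A, hA, h2⟩
      exact ⟨h3.1, fun t ht => Pool.Agent.N739.EL.asymp_sv hA h ht⟩
    tfae_have 3 → 4 := by
      rintro ⟨h2, h3⟩
      exact ⟨h2, fun ε hε => (Pool.Agent.N739.EL.pair_top hlam).1 (Pool.Agent.N739.EL.sv_pair h3 hlam hε)⟩
    have back : (Pool.Agent.N739.EL.NoZ F ∧ ρ = r ∧ 0 < Pool.Agent.N739.EL.Tc F r ∧ ∀ ε : ℝ, 0 < ε →
          Pool.Agent.N739.EL.NearW atTop (Pool.Agent.N739.EL.dev a b (Pool.Agent.N739.EL.Tc F r) r) ε) →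
        (NoZeros F ∧ ρ = r ∧ 0 < T F r ∧
          Tendsto (fun x : ℝ => bsdProduct a b x / Real.log x ^ ρ) atTop (𝓝 (T F r))) := by
      rintro ⟨k1, k2, k3, k4⟩
      refine ⟨k1, k2, k3, (Pool.Agent.N739.EL.asymp_top k3).1 ((Pool.Agent.N739.EL.asymp_near le_rfl k3).2 ?_)⟩
      rw [k2]
      exact k4
    tfae_have 4 → 1 := by
      rintro ⟨h2, h3⟩
      exact back (o20.1 ⟨h2, fun ε hε => (Pool.Agent.N739.EL.pair_top hlam).2 (h3 ε hε)⟩)
    tfae_have 5 → 1 := by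
      rintro ⟨h2, hR, h3⟩
      exact back (o30.1 ⟨h2, hR, fun ε hε => (Pool.Agent.N739.EL.pair_top hlam).2 (h3 ε hε)⟩)
    tfae_have 1 → 5 := by
      rintro ⟨-, -, h2, h3⟩
      have h4 := (Pool.Agent.N739.EL.asymp_near le_rfl h2).1 ((Pool.Agent.N739.EL.asymp_top h2).2 h3)
      obtain ⟨k1, k2, k3⟩ := o13.1 ⟨_, h2, h4⟩
      exact ⟨k1, k2, fun ε hε => (Pool.Agent.N739.EL.pair_top hlam).1 (k3 ε hε)⟩
    tfae_finish

end Pool.Agent.Results.MP_ad1693_nt.OneSparseSequence
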