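import Pool.Agent.TH942.SL.CurveLim
import Pool.Agent.TH942.SL.Level
import Pool.Agent.TH941.Newform

/-!
# The original product of Birch and Swinnerton-Dyer with a randomised cut-off, and zero-free sectors

`E : y² = x³ + a x + b` is an elliptic curve over `ℚ`, `a, b ∈ ℤ`, `N_p` the number of its points modulo `p`
(with the point at infinity), `F` the entire continuation of the incomplete `L`-series
`∏_{p ∤ 2Δ} (1 - a_p p^{-s} + p^{1-2s})⁻¹`, `m = ord_{s=1} F`, and `f` is the newform of `E`. The conjecture of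
Birch and Swinnerton-Dyer in its original form is `∑_{p ≤ X} log (N_p / p) = r log log X + c + o(1)`. For `ρ > 1` let

`S_ρ(X) = ∑_p w_ρ(log p / log X) log (N_p / p)`, `w_ρ(u) = (2πi)⁻¹ ∫_{Re z = 1} exp (z - u z^{1/ρ}) dz / z`

(the sum over the good `p ≤ exp ((log X)^ρ')`, for any fixed `ρ' > ρ`). It is proved for every `E` and every `ρ > 1`,
with no hypothesis on the zeros:

* `S_ρ(X) - m log log X` converges if and only if `F` has no zero `s ≠ 1` in the sector `|arg (s - 1)| < π / (2ρ)`;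
  the limit then is `log (√2 e^{mγ/ρ} m! / F^{(m)}(1))`. It is enough that `S_ρ(X) = O(log log X)`; and if
  `S_ρ(X) - c log log X` is bounded for some real `c` then `c = m`.
* Otherwise `S_ρ` is large: for every zero `s` of the sector and `β < Re (s - 1)^ρ` there are arbitrarily large `X`
  with `|S_ρ(X)| > exp (β (log X)^ρ)`, and the supremum of the `Re (s - 1)^ρ` is the exact exponent of growth.
* `F` has no zeros with `Re s > 1` (the Riemann hypothesis for `E`) if and only if the formula holds for all `ρ > 1`.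
* `F` has no real zeros `s > 1` if and only if the formula holds for some `ρ > 1`.

So there is a one-parameter family of forms of the conjecture, one for each opening of the sector, between the
form with the sharp cut-off (`ρ = 1`, Goldfeld 1982: implies the Riemann hypothesis for `E`, and is not implied by it)
and the one which sees the real zeros only (`ρ → ∞`, exponential weights).

The analysis is in `Pool/Agent/TH942/SL` (helper942; the contour integral is taken along `z = v^{1/ρ}`), the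
theorem of Rankin and Selberg for the primes, from the newform, in `Pool/Agent/TH941` (helper941).
-/

set_option autoImplicit false

namespace Pool.Agent.Results.MP_ad1693_nt.SectorialMeans

open Filter Topology Set Classical
open CongruenceSubgroup UpperHalfPlane
open scoped MatrixGroups

/-- The number of the points of `y² = x³ + a x + b` modulo `p`, with the point at infinity. -/
noncomputable def numPoints (a b : ℤ) (p : ℕ) : ℕ :=
  Nat.card {q : ZMod p × ZMod p // q.2 ^ 2 = q.1 ^ 3 + (a : ZMod p) * q.1 + (b : ZMod p)} + 1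

/-- `p` is a prime which does not divide `2 (4 a³ + 27 b²)`. -/
def Good (a b : ℤ) (p : ℕ) : Prop :=
  p.Prime ∧ ¬ ((p : ℤ) ∣ 2 * (-4 * a ^ 3 - 27 * b ^ 2))

/-- `F` is an entire function which for `Re s > 3/2` is the incomplete `L`-series
`∏_{p ∤ 2Δ} (1 - a_p p^{-s} + p^{1-2s})⁻¹`, `a_p = p + 1 - N_p`, of `y² = x³ + a x + b`. -/
def IsLSeries (a b : ℤ) (F : ℂ → ℂ) : Prop :=
  Differentiable ℂ F ∧ ∀ s : ℂ, (3 : ℝ) / 2 < s.re →
    HasProd (fun p : ℕ => if Good a b p then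
      (1 - ((p : ℂ) + 1 - (numPoints a b p : ℂ)) * (p : ℂ) ^ (-s) + (p : ℂ) ^ (1 - 2 * s))⁻¹ else 1)
      (F s)

/-- The `n`-th Fourier coefficient of `f`. -/
noncomputable def coef {N : ℕ} (f : CuspForm (Gamma0 N : Subgroup (GL (Fin 2) ℝ)) 2) (n : ℕ) : ℂ :=
  (qExpansion 1 f).coeff n

/-- `f ∈ S_2(Γ₀(N))` is the newform of the elliptic curve `E : y² = x³ + a x + b` of conductor `N`: the
Fourier coefficients `c(n)` of `f` are real with `c(1) = 1`, they satisfy the Hecke relations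
`c(mn) = c(m) c(n)` for coprime `m`, `n` and `c(p^(j+2)) = c(p) c(p^(j+1)) - p c(p^j)` (without the last
term if `p ∣ N`), `c(p) = a_p = p + 1 - N_p` for all primes `p ∤ 2Δ`, `|c(p)| ≤ 2 √p` for all
`p ∤ N` (Hasse) and `c(p) = 0, 1, -1` for `p ∣ N`. By the modularity theorem it exists for every `E`. -/
structure IsNewformOf (a b : ℤ) (N : ℕ) (f : CuspForm (Gamma0 N : Subgroup (GL (Fin 2) ℝ)) 2) :
    Prop where
  one : coef f 1 = 1
  real : ∀ n, (coef f n).im = 0
  mul : ∀ m n : ℕ, Nat.Coprime m n → coef f (m * n) = coef f m * coef f n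
  pow : ∀ p j : ℕ, p.Prime → coef f (p ^ (j + 2)) = coef f p * coef f (p ^ (j + 1)) -
      (if p ∣ N then 0 else (p : ℂ) * coef f (p ^ j))
  points : ∀ p : ℕ, Good a b p → coef f p = (p : ℂ) + 1 - (numPoints a b p : ℂ)
  good : ∀ p : ℕ, p.Prime → ¬ p ∣ N → ‖coef f p‖ ≤ 2 * Real.sqrt p
  bad : ∀ p : ℕ, p.Prime → p ∣ N → coef f p = 0 ∨ coef f p = 1 ∨ coef f p = -1

/-- The weight `w_ρ(u) = (2π)⁻¹ ∫ Re (exp (z - u z^{1/ρ}) / z) dt`, `z = 1 + it`. -/
noncomputable def weight (ρ u : ℝ) : ℝ :=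
  (2 * Real.pi)⁻¹ * ∫ t : ℝ, (Complex.exp ((1 + t * Complex.I) -
    u * (1 + t * Complex.I) ^ ((ρ⁻¹ : ℝ) : ℂ)) / (1 + t * Complex.I)).re

/-- `S_ρ(X) = ∑ w_ρ(log p / log X) log (N_p / p)`, the sum over the good primes `p ≤ exp ((log X)^ρ')`. -/
noncomputable def S (a b : ℤ) (ρ ρ' X : ℝ) : ℝ :=
  ∑ p ∈ (Finset.range (⌊Real.exp (Real.log X ^ ρ')⌋₊ + 1)).filter (Good a b),
    weight ρ (Real.log p / Real.log X) * Real.log ((numPoints a b p : ℝ) / p)

/-- `F` has no zeros `s ≠ 1` in the sector `|arg (s - 1)| < π / (2 ρ)`. -/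
def NoZerosInSector (F : ℂ → ℂ) (ρ : ℝ) : Prop :=
  ∀ s : ℂ, s ≠ 1 → |(s - 1).arg| < Real.pi / (2 * ρ) → F s ≠ 0

/-! ### Translation to the definitions of the imported files -/

variable {a b : ℤ} {F : ℂ → ℂ}

theorem numPoints_sub (p : ℕ) : (p : ℂ) + 1 - (numPoints a b p : ℂ) =
    (p : ℂ) - (Pool.Agent.W263.BSD.pointCount a b p : ℂ) := by
  unfold numPoints Pool.Agent.W263.BSD.pointCount
  push_cast
  ring

theorem isLSeries (hF : IsLSeries a b F) : Pool.Agent.W263.BSD.IsLSeries a b F := by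
  refine ⟨hF.1, fun s hs => ?_⟩
  have h := hF.2 s hs
  simp only [numPoints_sub] at h
  exact h

theorem hecke {N : ℕ} {f : CuspForm (Gamma0 N : Subgroup (GL (Fin 2) ℝ)) 2}
    (hf : IsNewformOf a b N f) : Pool.Agent.TH941.Hecke f where
  one := hf.one
  real := hf.real
  mul := hf.mul
  pow := hf.pow
  good := hf.good
  bad := fun p hp h => by
    rcases hf.bad p hp h with h1 | h1 | h1
    · have h2 : ‖coef f p‖ ≤ 1 := by rw [h1]; simp
      exact h2
    · have h2 : ‖coef f p‖ ≤ 1 := by rw [h1]; simp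
      exact h2
    · have h2 : ‖coef f p‖ ≤ 1 := by rw [h1]; simp
      exact h2

theorem S_eq (ρ ρ' X : ℝ) : S a b ρ ρ' X = Pool.Agent.TH942.SL.Sr a b ρ ρ' X := by
  unfold S Pool.Agent.TH942.SL.Sr
  refine Finset.sum_congr rfl fun p _ => ?_
  unfold weight Pool.Agent.TH942.SL.wml numPoints Pool.Agent.W263.BSD.pointCount
  push_cast
  rfl

/-! ### The sectors -/

theorem ne_zero_two (hF : IsLSeries a b F) {s : ℂ} (hs : 2 < s.re) : F s ≠ 0 := by
  intro h0
  have h := Pool.Agent.TH942.SL.GK_exp (isLSeries hF) (s := s - 1)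
    (by rw [Complex.sub_re, Complex.one_re]; linarith)
  have h1 : Pool.Agent.W263.BSD.PhiF a b F (s - 1) = 0 := by
    unfold Pool.Agent.W263.BSD.PhiF
    rw [add_sub_cancel, h0, zero_mul]
  rw [h1] at h
  exact Complex.exp_ne_zero _ h

/-- no real zeros: a zero-free sector -/
theorem some_sector (hF : IsLSeries a b F) {m : ℕ} (hm : analyticOrderAt F 1 = m)
    (hR : ∀ x : ℝ, 1 < x → F x ≠ 0) : ∃ ρ : ℝ, 1 < ρ ∧ NoZerosInSector F ρ := by
  have hA : AnalyticAt ℂ F 1 := hF.1.analyticAt 1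
  have h1 : ∀ᶠ s in 𝓝[≠] (1 : ℂ), F s ≠ 0 := by
    rcases hA.eventually_eq_zero_or_eventually_ne_zero with h | h
    · exfalso
      rw [analyticOrderAt_eq_top.2 h] at hm
      exact ENat.top_ne_natCast m hm
    · exact h
  rw [eventually_nhdsWithin_iff, Metric.eventually_nhds_iff] at h1
  obtain ⟨r, hr, h1⟩ := h1
  set K : Set ℂ := (fun x : ℝ => (x : ℂ)) '' Icc (1 + r / 2) 2 with hK
  have hKc : IsCompact K := isCompact_Icc.image Complex.continuous_ofReal
  have hU : IsOpen {s : ℂ | F s ≠ 0} := isOpen_ne_fun hF.1.continuous continuous_const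
  have hKU : K ⊆ {s : ℂ | F s ≠ 0} := by
    rintro _ ⟨x, hx, rfl⟩
    exact hR x (by linarith [hx.1])
  obtain ⟨δ, hδ, h2⟩ := hKc.exists_thickening_subset_open hU hKU
  have hpi := Real.pi_pos
  -- the sector
  set ρ : ℝ := 2 + Real.pi / δ with hρ
  have hρ2 : 2 < ρ := by
    have : 0 < Real.pi / δ := by positivity
    linarith
  refine ⟨ρ, by linarith, fun s hs1 hs => ?_⟩
  have hρδ : Real.pi / (2 * ρ) ≤ δ / 2 := by
    rw [div_le_div_iff₀ (by positivity) (by norm_num)]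
    have : δ * ρ = 2 * δ + Real.pi := by rw [hρ]; field_simp
    nlinarith
  have hq : Real.pi / (2 * ρ) ≤ Real.pi / 3 := by
    apply div_le_div_of_nonneg_left hpi.le (by norm_num) (by linarith)
  have harg3 : |(s - 1).arg| ≤ Real.pi / 3 := hs.le.trans hq
  set z : ℂ := s - 1 with hz
  have hz0 : z ≠ 0 := sub_ne_zero.2 hs1
  have hcos : 1 / 2 ≤ Real.cos z.arg := by
    rw [← Real.cos_abs, ← Real.cos_pi_div_three]
    exact Real.cos_le_cos_of_nonneg_of_le_pi (abs_nonneg _) (by linarith) harg3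
  have hre : ‖z‖ / 2 ≤ z.re := by
    have e1 : ‖z‖ * Real.cos z.arg = z.re := Complex.norm_mul_cos_arg z
    rw [← e1]
    nlinarith [norm_nonneg z]
  have him : |z.im| ≤ ‖z‖ * |z.arg| := by
    have e1 : ‖z‖ * Real.sin z.arg = z.im := Complex.norm_mul_sin_arg z
    rw [← e1, abs_mul, abs_of_nonneg (norm_nonneg z)]
    exact mul_le_mul_of_nonneg_left Real.abs_sin_le_abs (norm_nonneg z)
  by_cases hsr : dist s 1 < r
  · exact h1 hsr hs1
  · rw [not_lt, dist_eq_norm] at hsr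
    by_cases hs2 : 2 < s.re
    · exact ne_zero_two hF hs2
    · rw [not_lt] at hs2
      have hsre : s.re = 1 + z.re := by rw [hz, Complex.sub_re, Complex.one_re]; ring
      have hsim : s.im = z.im := by rw [hz, Complex.sub_im, Complex.one_im]; ring
      refine h2 (Metric.mem_thickening_iff.2 ⟨((s.re : ℝ) : ℂ), ⟨s.re, ⟨?_, hs2⟩, rfl⟩, ?_⟩)
      · rw [hsre]
        linarith
      · have e2 : s - ((s.re : ℝ) : ℂ) = s.im * Complex.I := by
          apply Complex.ext <;> simp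
        rw [dist_eq_norm, e2, norm_mul, Complex.norm_I, mul_one, Complex.norm_real, Real.norm_eq_abs,
          hsim]
        have hn2 : ‖z‖ ≤ 2 := by linarith
        have harg : |z.arg| < δ / 2 := lt_of_lt_of_le hs hρδ
        calc |z.im| ≤ ‖z‖ * |z.arg| := him
          _ ≤ 2 * |z.arg| := mul_le_mul_of_nonneg_right hn2 (abs_nonneg _)
          _ < δ := by linarith

/-- the exponent of `log X` -/
theorem order_unique {g : ℝ → ℝ} {c₁ c₂ C₁ C₂ : ℝ}
    (h1 : ∀ᶠ X : ℝ in atTop, |g X - c₁ * Real.log (Real.log X)| ≤ C₁)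
    (h2 : ∀ᶠ X : ℝ in atTop, |g X - c₂ * Real.log (Real.log X)| ≤ C₂) : c₁ = c₂ := by
  by_contra hne
  have h3 : Tendsto (fun X : ℝ => |c₁ - c₂| * Real.log (Real.log X)) atTop atTop :=
    (Real.tendsto_log_atTop.comp Real.tendsto_log_atTop).const_mul_atTop
      (abs_pos.2 (sub_ne_zero.2 hne))
  obtain ⟨X, a1, a2, a3, a4⟩ := (h1.and (h2.and ((h3.eventually_gt_atTop (C₁ + C₂)).and
    ((Real.tendsto_log_atTop.comp Real.tendsto_log_atTop).eventually_ge_atTop 0)))).exists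
  have a4' : 0 ≤ Real.log (Real.log X) := a4
  have e1 : |(c₁ - c₂) * Real.log (Real.log X)| ≤ C₂ + C₁ := by
    have : (c₁ - c₂) * Real.log (Real.log X) =
        (g X - c₂ * Real.log (Real.log X)) - (g X - c₁ * Real.log (Real.log X)) := by ring
    rw [this]
    exact (abs_sub _ _).trans (add_le_add a2 a1)
  rw [abs_mul, abs_of_nonneg a4'] at e1
  linarith

/-- the bounded deviation for a zero-free sector -/
theorem bounded_of (hF : IsLSeries a b F) {m : ℕ} (hm : analyticOrderAt F 1 = m) {ρ ρ' : ℝ} (hρ : 1 < ρ)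
    (hρ' : ρ < ρ') (hz : NoZerosInSector F ρ) :
    ∃ C : ℝ, ∀ᶠ X : ℝ in atTop, |S a b ρ ρ' X - m * Real.log (Real.log X)| ≤ C := by
  obtain ⟨C, -, h⟩ := Pool.Agent.TH942.SL.Sr_up (isLSeries hF) hρ hρ' hm hz
  simp only [S_eq]
  exact ⟨C, h⟩

theorem log_of {ρ ρ' c C : ℝ} (h : ∀ᶠ X : ℝ in atTop,
    |S a b ρ ρ' X - c * Real.log (Real.log X)| ≤ C) :
    ∀ᶠ X : ℝ in atTop, |S a b ρ ρ' X| ≤ (|C| + |c|) * Real.log (Real.log X) := by
  filter_upwards [h, (Real.tendsto_log_atTop.comp Real.tendsto_log_atTop).eventually_ge_atTop 1]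
    with X h1 h2
  have h2' : 1 ≤ Real.log (Real.log X) := h2
  have h3 : |c * Real.log (Real.log X)| = |c| * Real.log (Real.log X) := by
    rw [abs_mul, abs_of_nonneg (by linarith : 0 ≤ Real.log (Real.log X))]
  have h4 : |C| ≤ |C| * Real.log (Real.log X) := le_mul_of_one_le_right (abs_nonneg _) h2'
  have h5 := abs_sub_abs_le_abs_sub (S a b ρ ρ' X) (c * Real.log (Real.log X))
  have h6 := le_abs_self C
  rw [h3] at h5
  rw [add_mul]
  linarith

theorem sector_of (hF : IsLSeries a b F) {ρ ρ' : ℝ} (hρ : 1 < ρ) (hρ' : ρ < ρ') {C : ℝ}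
    (h : ∀ᶠ X : ℝ in atTop, |S a b ρ ρ' X| ≤ C * Real.log (Real.log X)) :
    NoZerosInSector F ρ := by
  simp only [S_eq] at h
  exact Pool.Agent.TH942.SL.sector_of_small (isLSeries hF) hρ hρ' h

/-- **Theorem.** `E : y² = x³ + a x + b`, `F` the entire continuation of its incomplete `L`-series,
`m = ord_{s=1} F`. For `1 < ρ < ρ'`:
(1) `F` has no zeros in the sector `|arg (s - 1)| < π / (2ρ)` if and only if `S_ρ(X) = m log log X + O(1)`, if and only
if `S_ρ(X) = c log log X + O(1)` for some real `c`, if and only if `S_ρ(X) = O(log log X)`;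
(2) if `S_ρ(X) = c log log X + O(1)` then `c = m`;
(3) a zero `s` of the sector makes `|S_ρ(X)| > exp (β (log X)^ρ)` for arbitrarily large `X`, for `β < Re (s - 1)^ρ`,
which is positive;
(4) the supremum of the `Re (s - 1)^ρ` is the exact exponent;
(5) if `f` is the newform of `E`, the conditions of (1) hold if and only if `S_ρ(X) - m log log X` converges to
`κ = log (√2 e^{mγ/ρ} m! / F^{(m)}(1))`.
(6) The Riemann hypothesis for `E` holds if and only if `S_ρ(X) = m log log X + O(1)` for all `ρ > 1`.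
(7) `F` has no real zeros `> 1` if and only if `S_ρ(X) = m log log X + O(1)` for some `ρ > 1`. -/
theorem result (a b : ℤ) (hΔ : 4 * a ^ 3 + 27 * b ^ 2 ≠ 0) (F : ℂ → ℂ) (hF : IsLSeries a b F)
    (m : ℕ) (hm : analyticOrderAt F 1 = m) :
    (∀ ρ ρ' : ℝ, 1 < ρ → ρ < ρ' →
      List.TFAE [
        NoZerosInSector F ρ,
        ∃ C : ℝ, ∀ᶠ X : ℝ in atTop, |S a b ρ ρ' X - m * Real.log (Real.log X)| ≤ C,
        ∃ c C : ℝ, ∀ᶠ X : ℝ in atTop, |S a b ρ ρ' X - c * Real.log (Real.log X)| ≤ C,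
        ∃ C : ℝ, ∀ᶠ X : ℝ in atTop, |S a b ρ ρ' X| ≤ C * Real.log (Real.log X)] ∧
      (∀ c C : ℝ, (∀ᶠ X : ℝ in atTop, |S a b ρ ρ' X - c * Real.log (Real.log X)| ≤ C) → c = m) ∧
      (∀ s : ℂ, s ≠ 1 → |(s - 1).arg| < Real.pi / (2 * ρ) → F s = 0 →
        0 < ((s - 1) ^ (ρ : ℂ)).re ∧ ∀ β : ℝ, β < ((s - 1) ^ (ρ : ℂ)).re →
          ∃ᶠ X : ℝ in atTop, Real.exp (β * Real.log X ^ ρ) < |S a b ρ ρ' X|) ∧
      (∀ θ : ℝ, 0 ≤ θ → ((∀ s : ℂ, s ≠ 1 → |(s - 1).arg| < Real.pi / (2 * ρ) →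
          θ < ((s - 1) ^ (ρ : ℂ)).re → F s ≠ 0) ↔
        ∀ ε : ℝ, 0 < ε → ∃ C : ℝ, ∀ᶠ X : ℝ in atTop,
          |S a b ρ ρ' X| ≤ C * Real.exp ((θ + ε) * Real.log X ^ ρ))) ∧
      (∀ (N : ℕ) [NeZero N] (f : CuspForm (Gamma0 N : Subgroup (GL (Fin 2) ℝ)) 2),
        IsNewformOf a b N f → (NoZerosInSector F ρ ↔
          ∃ κ : ℝ, Tendsto (fun X : ℝ => S a b ρ ρ' X - m * Real.log (Real.log X)) atTop (𝓝 κ) ∧
            (Real.exp κ : ℂ) * (iteratedDeriv m F 1 / (m.factorial : ℂ)) =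
              ((√2 * Real.exp (m * ρ⁻¹ * Real.eulerMascheroniConstant) : ℝ) : ℂ)))) ∧
    ((∀ s : ℂ, 1 < s.re → F s ≠ 0) ↔ ∀ ρ ρ' : ℝ, 1 < ρ → ρ < ρ' →
      ∃ C : ℝ, ∀ᶠ X : ℝ in atTop, |S a b ρ ρ' X - m * Real.log (Real.log X)| ≤ C) ∧
    ((∀ x : ℝ, 1 < x → F x ≠ 0) ↔ ∃ ρ ρ' : ℝ, 1 < ρ ∧ ρ < ρ' ∧
      ∃ C : ℝ, ∀ᶠ X : ℝ in atTop, |S a b ρ ρ' X - m * Real.log (Real.log X)| ≤ C) := by
  have hF' := isLSeries hF
  refine ⟨fun ρ ρ' hρ hρ' => ⟨?_, ?_, ?_, ?_, ?_⟩, ⟨?_, ?_⟩, ⟨?_, ?_⟩⟩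
  · tfae_have 1 → 2 := bounded_of hF hm hρ hρ'
    tfae_have 2 → 3 := fun ⟨C, h⟩ => ⟨m, C, h⟩
    tfae_have 3 → 4 := fun ⟨c, C, h⟩ => ⟨_, log_of h⟩
    tfae_have 4 → 1 := fun ⟨C, h⟩ => sector_of hF hρ hρ' h
    tfae_finish
  · intro c C h
    obtain ⟨C', h'⟩ := bounded_of hF hm hρ hρ' (sector_of hF hρ hρ' (log_of h))
    exact order_unique h h'
  · intro s hs1 hs h0
    refine ⟨(Pool.Agent.TH942.SL.exists_root hρ (sub_ne_zero.2 hs1) hs).1, fun β hβ => ?_⟩
    have h := Pool.Agent.TH942.SL.Sr_down hF' hρ hρ' hs1 hs h0 hβ 1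
    simp only [one_mul] at h
    simp only [S_eq]
    exact h
  · intro θ hθ
    simp only [S_eq]
    exact Pool.Agent.TH942.SL.Sr_level hF' hρ hρ' hθ
  · intro N _ f hf
    have hrs : Tendsto (Pool.Agent.W263.BSD.rsSum a b) atTop (𝓝 0) :=
      (hecke hf).rsSum_tendsto hΔ fun p hp => (hf.points p hp).trans (numPoints_sub p)
    constructor
    · intro hz
      simp only [S_eq]
      exact Pool.Agent.TH942.SL.Sr_lim hΔ hrs hF' hρ hρ' hm hz
    · rintro ⟨κ, hκ, -⟩
      have h1 : ∀ᶠ X : ℝ in atTop, |S a b ρ ρ' X - m * Real.log (Real.log X)| ≤ |κ| + 1 :=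
        ((continuous_abs.tendsto κ).comp hκ).eventually_le_const (by simp)
      exact sector_of hF hρ hρ' (log_of h1)
  · intro hz ρ ρ' hρ hρ'
    exact bounded_of hF hm hρ hρ' fun s hs1 hs => hz s (Pool.Agent.TH942.SL.re_of_sector hρ hs1 hs)
  · intro h s hs
    obtain ⟨ρ, hρ, harg⟩ := Pool.Agent.TH942.SL.mem_sector hs
    obtain ⟨C, hC⟩ := h ρ (ρ + 1) hρ (by linarith)
    refine sector_of hF hρ (by linarith) (log_of hC) s ?_ harg
    intro h1
    rw [h1, Complex.one_re] at hs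
    exact lt_irrefl _ hs
  · intro hR
    obtain ⟨ρ, hρ, hz⟩ := some_sector hF hm hR
    exact ⟨ρ, ρ + 1, hρ, by linarith, bounded_of hF hm hρ (by linarith) hz⟩
  · rintro ⟨ρ, ρ', hρ, hρ', C, hC⟩ x hx
    refine sector_of hF hρ hρ' (log_of hC) x ?_ ?_
    · intro h1
      have : x = 1 := by exact_mod_cast h1
      linarith
    · have e1 : ((x : ℂ) - 1) = ((x - 1 : ℝ) : ℂ) := by push_cast; ring
      rw [e1, Complex.arg_ofReal_of_nonneg (by linarith), abs_zero]
      have := Real.pi_pos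
      positivity

end Pool.Agent.Results.MP_ad1693_nt.SectorialMeans
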